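import Pool.Agent.helper26.EC.SpecW

/-! # Project EC (MP_5628fe_nt), row CM0 -/

set_option autoImplicit false

namespace Pool.Agent.EC

open Finset ArithmeticFunction
open Pool.Agent.CH (Win)

/-- the cell of a prime -/
noncomputable def CM0_ce (N q : ℕ) : ℕ := ⌊962 * Real.log q / (3 * Real.log N)⌋₊

theorem CM0_om_nonneg (b : Bool) (r σ : ℕ) : 0 ≤ om b r σ := by
  unfold om
  split_ifs <;> positivity

theorem CM0_ph_pos (r σ : ℕ) (hr : r ≤ 9) (hσ : σ ≤ 861) : 0 < ph r σ := by
  unfold ph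
  have h1 : (r : ℝ) ≤ 9 := by exact_mod_cast hr
  have h2 : (σ : ℝ) ≤ 861 := by exact_mod_cast hσ
  apply div_pos (by norm_num)
  linarith

theorem CM0_TL_nonneg {r : ℕ} (N : ℕ) (a b : Fin r → ℝ) (m : ℕ) : 0 ≤ TL N a b m := by
  unfold TL
  exact Finset.sum_nonneg fun _ _ => vonMangoldt_nonneg

theorem CM0_JJ_sum {b : Bool} {r : ℕ} {j : Fin r → ℕ} (hj : j ∈ JJ b r) : ∑ i, j i ≤ 861 := by
  unfold JJ at hj
  exact (Finset.mem_filter.mp hj).2

theorem CM0_term_nonneg (N : ℕ) (hN : 2 ≤ N) (m : ℕ) (b : Bool) (r : ℕ) (hr : r ≤ 9) (j : Fin r → ℕ) (hj : j ∈ JJ b r) :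
    0 ≤ om b r (∑ i, j i) * ph r (∑ i, j i) / (3 * Real.log N) * TL N (aJ j) (bJ j) m := by
  have hL : 0 < Real.log N := Real.log_pos (by exact_mod_cast hN)
  have h1 := CM0_om_nonneg b r (∑ i, j i)
  have h2 := (CM0_ph_pos r (∑ i, j i) hr (CM0_JJ_sum hj)).le
  have h3 := CM0_TL_nonneg N (aJ j) (bJ j) m
  positivity

theorem CM0_TS_ge (N : ℕ) (hN : 2 ≤ N) (m : ℕ) (b : Bool) (r : ℕ) (h4 : 4 ≤ r) (hr : r ≤ 9) :
    ∑ j ∈ JJ b r, om b r (∑ i, j i) * ph r (∑ i, j i) / (3 * Real.log N) * TL N (aJ j) (bJ j) m ≤ TS N m := by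
  unfold TS
  have h1 : ∑ j ∈ JJ b r, om b r (∑ i, j i) * ph r (∑ i, j i) / (3 * Real.log N) * TL N (aJ j) (bJ j) m ≤
      ∑ r ∈ Icc 4 9, ∑ j ∈ JJ b r, om b r (∑ i, j i) * ph r (∑ i, j i) / (3 * Real.log N) *
        TL N (aJ j) (bJ j) m := by
    refine Finset.single_le_sum (f := fun r => ∑ j ∈ JJ b r, om b r (∑ i, j i) * ph r (∑ i, j i) /
      (3 * Real.log N) * TL N (aJ j) (bJ j) m) (fun r' hr' => ?_) (Finset.mem_Icc.mpr ⟨h4, hr⟩)
    exact Finset.sum_nonneg fun j hj => CM0_term_nonneg N hN m b r' (Finset.mem_Icc.mp hr').2 j hj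
  refine h1.trans ?_
  refine Finset.single_le_sum (f := fun b => ∑ r ∈ Icc 4 9, ∑ j ∈ JJ b r, om b r (∑ i, j i) *
      ph r (∑ i, j i) / (3 * Real.log N) * TL N (aJ j) (bJ j) m) (fun b' _ => ?_) (Finset.mem_univ b)
  exact Finset.sum_nonneg fun r' hr' => Finset.sum_nonneg fun j hj =>
    CM0_term_nonneg N hN m b' r' (Finset.mem_Icc.mp hr').2 j hj

/-- the cells contain the prime -/
theorem CM0_cell (N q : ℕ) (hN : 2 ≤ N) (hq : 1 ≤ q) :
    (N : ℝ) ^ (3 * ((CM0_ce N q : ℕ) : ℝ) / 962) ≤ q ∧ (q : ℝ) < (N : ℝ) ^ (3 * (((CM0_ce N q : ℕ) : ℝ) + 1) / 962) := by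
  have hL : 0 < Real.log N := Real.log_pos (by exact_mod_cast hN)
  have hN0 : (0 : ℝ) < N := by positivity
  have hq0 : (0 : ℝ) < q := by exact_mod_cast hq
  have hlq : 0 ≤ Real.log q := Real.log_nonneg (by exact_mod_cast hq)
  have h0 : 0 ≤ 962 * Real.log q / (3 * Real.log N) := by positivity
  have h1 := Nat.floor_le h0
  have h2 := Nat.lt_floor_add_one (962 * Real.log q / (3 * Real.log N))
  constructor
  · rw [Real.rpow_def_of_pos hN0, ← Real.le_log_iff_exp_le hq0]
    rw [le_div_iff₀ (by positivity)] at h1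
    unfold CM0_ce
    linarith
  · rw [Real.rpow_def_of_pos hN0, ← Real.log_lt_iff_lt_exp hq0]
    rw [div_lt_iff₀ (by positivity)] at h2
    unfold CM0_ce
    linarith

/-- the remaining prime -/
theorem CM0_rem (a r : ℕ) (hsq : Squarefree a) (hcard : #a.primeFactors = r + 1) (U : Finset ℕ)
    (hU : U ⊆ a.primeFactors) (e : Fin r ↪ U) : ∃ P ∈ a.primeFactors, a = (∏ i, (e i : ℕ)) * P := by
  classical
  set I : Finset ℕ := univ.image fun i => (e i : ℕ) with hI
  have hinj : Function.Injective fun i => (e i : ℕ) := fun i i' h => e.injective (Subtype.ext h)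
  have hIc : #I = r := by rw [hI, Finset.card_image_of_injective _ hinj, Finset.card_univ, Fintype.card_fin]
  have hIS : I ⊆ a.primeFactors := by
    intro q hq
    obtain ⟨i, _, rfl⟩ := Finset.mem_image.mp hq
    exact hU (e i).2
  have hprod : ∏ q ∈ I, q = ∏ i, (e i : ℕ) := by
    rw [hI, Finset.prod_image (fun i _ i' _ h => hinj h)]
  have h1 : #(a.primeFactors \ I) = 1 := by
    rw [Finset.card_sdiff_of_subset hIS, hcard, hIc]
    omega
  obtain ⟨P, hP⟩ := Finset.card_eq_one.mp h1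
  have hPm : P ∈ a.primeFactors := by
    have : P ∈ a.primeFactors \ I := by rw [hP]; exact Finset.mem_singleton_self P
    exact (Finset.mem_sdiff.mp this).1
  refine ⟨P, hPm, ?_⟩
  have h2 := Nat.prod_primeFactors_of_squarefree hsq
  rw [← Finset.prod_sdiff hIS, hP, Finset.prod_singleton, hprod] at h2
  rw [← h2, mul_comm]

theorem CM0_sum (N a r : ℕ) (hN : 2 ≤ N) (ha : N ^ 3 < a) (hsq : Squarefree a) (hcard : #a.primeFactors = r + 1)
    (h4 : 4 ≤ r) (hr : r ≤ 9) (U : Finset ℕ) (hU : U ⊆ a.primeFactors) (ω : ℝ) (_hω : 0 ≤ ω)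
    (hcell : ∀ q ∈ U, 100 ≤ CM0_ce N q ∧ CM0_ce N q < 481)
    (hσ : ∀ e : Fin r ↪ U, ∑ i, CM0_ce N (e i) ≤ 861 ∧ ω ≤ om false r (∑ i, CM0_ce N (e i))) :
    (Fintype.card (Fin r ↪ U) : ℝ) * ω ≤ TS N a := by
  classical
  refine le_trans ?_ (CM0_TS_ge N hN a false r h4 hr)
  have hL : 0 < Real.log N := Real.log_pos (by exact_mod_cast hN)
  have hN0 : (0 : ℝ) < N := by positivity
  let J : (Fin r ↪ U) → (Fin r → ℕ) := fun e i => CM0_ce N (e i)
  let φ : (Fin r ↪ U) ↪ (Fin r → ℕ) := ⟨fun e i => (e i : ℕ), fun e e' h => by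
    ext i
    exact congrFun h i⟩
  have hJ : ∀ e : Fin r ↪ U, J e ∈ JJ false r := by
    intro e
    unfold JJ
    refine Finset.mem_filter.mpr ⟨?_, (hσ e).1⟩
    rw [Fintype.mem_piFinset]
    intro i
    have h1 := hcell (e i) (e i).2
    have h2 : ¬ (false = true ∧ i.val = 0) := by simp
    rw [if_neg h2, Finset.mem_Ico]
    exact h1
  have hTL : ∀ j ∈ JJ false r, ∑ e ∈ (univ : Finset (Fin r ↪ U)) with J e = j,
      vonMangoldt (a / ∏ i, (e i : ℕ)) ≤ TL N (aJ j) (bJ j) a := by
    intro j _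
    have h1 : ∑ e ∈ (univ : Finset (Fin r ↪ U)) with J e = j, vonMangoldt (a / ∏ i, (e i : ℕ)) =
        ∑ p ∈ ((univ : Finset (Fin r ↪ U)).filter fun e => J e = j).map φ, vonMangoldt (a / ∏ i, p i) := by
      rw [Finset.sum_map]
      rfl
    rw [h1]
    unfold TL
    refine Finset.sum_le_sum_of_subset_of_nonneg ?_ fun _ _ _ => vonMangoldt_nonneg
    intro p hp
    obtain ⟨e, he, rfl⟩ := Finset.mem_map.mp hp
    have he' : J e = j := (Finset.mem_filter.mp he).2
    refine Finset.mem_filter.mpr ⟨?_, ?_, ?_⟩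
    · rw [Fintype.mem_piFinset]
      intro i
      exact hU (e i).2
    · intro i
      have hq1 : 1 ≤ (e i : ℕ) := (Nat.prime_of_mem_primeFactors (hU (e i).2)).one_le
      have h2 := CM0_cell N (e i) hN hq1
      have h3 : j i = CM0_ce N (e i) := by rw [← he']
      unfold aJ bJ
      rw [h3]
      exact h2
    · obtain ⟨P, _, hP⟩ := CM0_rem a r hsq hcard U hU e
      exact ⟨P, hP⟩
  have hterm : ∀ e : Fin r ↪ U, ω ≤ om false r (∑ i, J e i) * ph r (∑ i, J e i) / (3 * Real.log N) *
      vonMangoldt (a / ∏ i, (e i : ℕ)) := by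
    intro e
    obtain ⟨P, hPm, hP⟩ := CM0_rem a r hsq hcard U hU e
    have hPp := Nat.prime_of_mem_primeFactors hPm
    have hpos : ∀ i, 0 < (e i : ℕ) := fun i => (Nat.prime_of_mem_primeFactors (hU (e i).2)).pos
    have hprod : 0 < ∏ i, (e i : ℕ) := Finset.prod_pos fun i _ => hpos i
    have h1 : a / ∏ i, (e i : ℕ) = P := by
      rw [hP]
      exact Nat.mul_div_cancel_left P hprod
    have h1' : vonMangoldt (a / ∏ i, (e i : ℕ)) = Real.log P := by
      rw [h1]
      exact vonMangoldt_apply_prime hPp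
    rw [h1']
    have hlog : Real.log a = ∑ i, Real.log (e i : ℕ) + Real.log P := by
      rw [hP, Nat.cast_mul, Nat.cast_prod, Real.log_mul
        (Finset.prod_ne_zero_iff.mpr fun i _ => by exact_mod_cast (hpos i).ne') (by exact_mod_cast hPp.ne_zero)]
      rw [Real.log_prod (fun i _ => by exact_mod_cast (hpos i).ne')]
    have hloga : 3 * Real.log N ≤ Real.log a := by
      have h3 : (3 : ℝ) * Real.log N = Real.log ((N : ℝ) ^ 3) := by
        rw [Real.log_pow]; norm_num
      rw [h3]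
      apply Real.log_le_log (by positivity)
      exact_mod_cast ha.le
    have hle : ∑ i, Real.log (e i : ℕ) ≤ 3 * Real.log N * ((∑ i, J e i : ℕ) + r) / 962 := by
      have h5 : ∀ i, Real.log (e i : ℕ) ≤ 3 * Real.log N * ((J e i : ℝ) + 1) / 962 := by
        intro i
        have h2 := (CM0_cell N (e i) hN (hpos i)).2.le
        have hq0 : (0 : ℝ) < ((e i : ℕ) : ℝ) := by exact_mod_cast hpos i
        have h6 := Real.log_le_log hq0 h2
        rw [Real.log_rpow hN0] at h6
        calc Real.log (e i : ℕ) ≤ _ := h6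
          _ = 3 * Real.log N * ((J e i : ℝ) + 1) / 962 := by ring
      calc ∑ i, Real.log (e i : ℕ) ≤ ∑ i, 3 * Real.log N * ((J e i : ℝ) + 1) / 962 :=
            Finset.sum_le_sum fun i _ => h5 i
        _ = _ := by
            rw [← Finset.sum_div, ← Finset.mul_sum, Finset.sum_add_distrib]
            simp
    have hs := (hσ e).1
    have hs' : ((∑ i, J e i : ℕ) : ℝ) ≤ 861 := by exact_mod_cast hs
    have hr' : (r : ℝ) ≤ 9 := by exact_mod_cast hr
    have hden : 0 < 962 - ((∑ i, J e i : ℕ) : ℝ) - r := by linarith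
    have hP1 : 3 * Real.log N * (962 - ((∑ i, J e i : ℕ) : ℝ) - r) / 962 ≤ Real.log P := by
      have h7 : 3 * Real.log N * (962 - ((∑ i, J e i : ℕ) : ℝ) - r) / 962 =
          3 * Real.log N - 3 * Real.log N * (((∑ i, J e i : ℕ) : ℝ) + r) / 962 := by ring
      rw [h7]
      linarith
    have hom := (hσ e).2
    have hom0 := CM0_om_nonneg false r (∑ i, J e i)
    have h8 : 1 ≤ ph r (∑ i, J e i) / (3 * Real.log N) * Real.log P := by
      have h9 : ph r (∑ i, J e i) / (3 * Real.log N) *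
          (3 * Real.log N * (962 - ((∑ i, J e i : ℕ) : ℝ) - r) / 962) = 1 := by
        unfold ph
        field_simp
      rw [← h9]
      refine mul_le_mul_of_nonneg_left hP1 ?_
      have := (CM0_ph_pos r (∑ i, J e i) hr hs).le
      positivity
    calc ω ≤ om false r (∑ i, J e i) * 1 := by rw [mul_one]; exact hom
      _ ≤ om false r (∑ i, J e i) * (ph r (∑ i, J e i) / (3 * Real.log N) * Real.log P) :=
          mul_le_mul_of_nonneg_left h8 hom0
      _ = _ := by ring
  calc (Fintype.card (Fin r ↪ U) : ℝ) * ω = ∑ e : Fin r ↪ U, ω := by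
        rw [Finset.sum_const, Finset.card_univ, nsmul_eq_mul]
    _ ≤ ∑ e : Fin r ↪ U, om false r (∑ i, J e i) * ph r (∑ i, J e i) / (3 * Real.log N) *
          vonMangoldt (a / ∏ i, (e i : ℕ)) := Finset.sum_le_sum fun e _ => hterm e
    _ = ∑ j ∈ JJ false r, ∑ e ∈ (univ : Finset (Fin r ↪ U)) with J e = j,
          om false r (∑ i, J e i) * ph r (∑ i, J e i) / (3 * Real.log N) *
            vonMangoldt (a / ∏ i, (e i : ℕ)) :=
        (Finset.sum_fiberwise_of_maps_to (fun e _ => hJ e) _).symm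
    _ ≤ ∑ j ∈ JJ false r, om false r (∑ i, j i) * ph r (∑ i, j i) / (3 * Real.log N) *
          TL N (aJ j) (bJ j) a := by
        refine Finset.sum_le_sum fun j hj => ?_
        have h1 : ∑ e ∈ (univ : Finset (Fin r ↪ U)) with J e = j,
            om false r (∑ i, J e i) * ph r (∑ i, J e i) / (3 * Real.log N) *
              vonMangoldt (a / ∏ i, (e i : ℕ)) =
            om false r (∑ i, j i) * ph r (∑ i, j i) / (3 * Real.log N) *
              ∑ e ∈ (univ : Finset (Fin r ↪ U)) with J e = j, vonMangoldt (a / ∏ i, (e i : ℕ)) := by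
          rw [Finset.mul_sum]
          refine Finset.sum_congr rfl fun e he => ?_
          rw [(Finset.mem_filter.mp he).2]
        rw [h1]
        refine mul_le_mul_of_nonneg_left (hTL j hj) ?_
        have h2 := CM0_om_nonneg false r (∑ i, j i)
        have h3 := (CM0_ph_pos r (∑ i, j i) hr (CM0_JJ_sum hj)).le
        positivity

/-- the sum of the cells -/
theorem CM0_sig (N r : ℕ) (hN : 2 ≤ N) (q : Fin r → ℕ) (B : ℝ)
    (hq : ∀ i, 1 ≤ q i) (hB : 962 * (∑ i, Real.log (q i)) ≤ B * (3 * Real.log N)) (M : ℕ) (hM : B < M + 1) :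
    ∑ i, CM0_ce N (q i) ≤ M := by
  have hL : 0 < Real.log N := Real.log_pos (by exact_mod_cast hN)
  have h1 : ((∑ i, CM0_ce N (q i) : ℕ) : ℝ) ≤ ∑ i, 962 * Real.log (q i) / (3 * Real.log N) := by
    rw [Nat.cast_sum]
    refine Finset.sum_le_sum fun i _ => ?_
    have hlq : 0 ≤ Real.log (q i) := Real.log_nonneg (by exact_mod_cast hq i)
    exact Nat.floor_le (by positivity)
  rw [← Finset.sum_div, ← Finset.mul_sum] at h1
  have h2 : 962 * (∑ i, Real.log (q i)) / (3 * Real.log N) ≤ B := by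
    rw [div_le_iff₀ (by positivity)]
    exact hB
  have h3 : ((∑ i, CM0_ce N (q i) : ℕ) : ℝ) < ((M + 1 : ℕ) : ℝ) := by
    push_cast
    push_cast at h1
    linarith
  have h4 : ∑ i, CM0_ce N (q i) < M + 1 := by exact_mod_cast h3
  omega

theorem CM0_log (N : ℕ) (hN : 10 ^ 7 ≤ N) : Real.log (N + 1) ≤ (1 + 1 / 10 ^ 6) * Real.log N := by
  have hN' : (10 : ℝ) ^ 7 ≤ N := by exact_mod_cast hN
  have hN0 : (0 : ℝ) < N := by linarith
  have h1 : Real.log ((N : ℝ) + 1) = Real.log N + Real.log (1 + 1 / N) := by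
    rw [← Real.log_mul hN0.ne' (by positivity)]
    congr 1
    field_simp
  have h2 : Real.log (1 + 1 / (N : ℝ)) ≤ 1 / N := by
    have := Real.log_le_sub_one_of_pos (show (0 : ℝ) < 1 + 1 / N by positivity)
    linarith
  have h3 : (1 : ℝ) / N ≤ 1 / 10 ^ 7 := one_div_le_one_div_of_le (by positivity) hN'
  have h4 : 1 ≤ Real.log N := by
    rw [Real.le_log_iff_exp_le hN0]
    have := Real.exp_one_lt_d9
    linarith
  rw [h1]
  linarith

/-- CM0. -/
theorem CM0 : CM0_stmt := by
  classical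
  refine ⟨10 ^ 7, fun N hN a ha1 ha2 hsq hq hk => ?_⟩
  have hN2 : 2 ≤ N := by omega
  have hL : 0 < Real.log N := Real.log_pos (by exact_mod_cast hN2)
  have hN0 : (0 : ℝ) < N := by
    have : 0 < N := by omega
    exact_mod_cast this
  have hlg := CM0_log N hN
  have hpos : ∀ q ∈ a.primeFactors, 0 < q := fun q h => (Nat.prime_of_mem_primeFactors h).pos
  have hone : ∀ q ∈ a.primeFactors, 1 ≤ q := fun q h => (Nat.prime_of_mem_primeFactors h).one_le
  have hlq : ∀ q ∈ a.primeFactors, ay * Real.log N ≤ Real.log q := by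
    intro q h
    have h1 := Real.log_le_log (Real.rpow_pos_of_pos hN0 _) (hq q h)
    rwa [Real.log_rpow hN0] at h1
  have hloga : Real.log a = ∑ q ∈ a.primeFactors, Real.log q := by
    conv_lhs => rw [← Nat.prod_primeFactors_of_squarefree hsq]
    rw [Nat.cast_prod, Real.log_prod (fun q h => by exact_mod_cast (hpos q h).ne')]
  have hlogle : Real.log a ≤ 3 * ((1 + 1 / 10 ^ 6) * Real.log N) := by
    have ha0 : (0 : ℝ) < a := by
      have : 0 < a := by omega
      exact_mod_cast this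
    have h1 : (a : ℝ) ≤ ((N : ℝ) + 1) ^ 3 := by exact_mod_cast ha2
    have h2 := Real.log_le_log ha0 h1
    rw [Real.log_pow] at h2
    push_cast at h2
    linarith
  obtain ⟨r, hr⟩ : ∃ r, #a.primeFactors = r + 1 := ⟨#a.primeFactors - 1, by omega⟩
  have h4 : 4 ≤ r := by omega
  have hay : ay = 311875 / 1000000 := by
    unfold ay
    norm_num
  have hsum : ∀ V : Finset ℕ, V ⊆ a.primeFactors → (#V : ℝ) * (ay * Real.log N) ≤ ∑ q ∈ V, Real.log q := by
    intro V hV
    rw [← nsmul_eq_mul]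
    exact Finset.card_nsmul_le_sum _ _ _ fun q h => hlq q (hV h)
  have hr9 : r ≤ 8 := by
    have h1 := hsum a.primeFactors (Finset.Subset.refl _)
    rw [← hloga, hr] at h1
    have h2 : ((r + 1 : ℕ) : ℝ) * (ay * Real.log N) ≤ 3 * ((1 + 1 / 10 ^ 6) * Real.log N) := h1.trans hlogle
    have h3 : (((r + 1 : ℕ) : ℝ) * ay) * Real.log N ≤ (3 * (1 + 1 / 10 ^ 6)) * Real.log N := by linarith
    have h5 := le_of_mul_le_mul_right h3 hL
    rw [hay] at h5
    by_contra hcon
    have h6 : (10 : ℝ) ≤ ((r + 1 : ℕ) : ℝ) := by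
      have : 10 ≤ r + 1 := by omega
      exact_mod_cast this
    nlinarith
  have hce100 : ∀ q ∈ a.primeFactors, 100 ≤ CM0_ce N q := by
    intro q h
    unfold CM0_ce
    rw [Nat.le_floor_iff (by have := Real.log_nonneg (show (1 : ℝ) ≤ q by exact_mod_cast hone q h); positivity)]
    rw [le_div_iff₀ (by positivity)]
    have h1 := hlq q h
    rw [hay] at h1
    push_cast
    nlinarith
  have hce481 : ∀ q ∈ a.primeFactors, Real.log q < 3 / 2 * Real.log N → CM0_ce N q < 481 := by
    intro q h h1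
    unfold CM0_ce
    rw [Nat.floor_lt (by have := Real.log_nonneg (show (1 : ℝ) ≤ q by exact_mod_cast hone q h); positivity)]
    rw [div_lt_iff₀ (by positivity)]
    push_cast
    linarith
  by_cases hbig : ∃ P ∈ a.primeFactors, 3 / 2 * Real.log N ≤ Real.log P
  · obtain ⟨P, hP, hPb⟩ := hbig
    set U := a.primeFactors.erase P with hU
    have hUS : U ⊆ a.primeFactors := Finset.erase_subset _ _
    have hUc : #U = r := by
      rw [hU, Finset.card_erase_of_mem hP, hr]
      omega
    have hUsum : ∑ q ∈ U, Real.log q + Real.log P = Real.log a := by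
      rw [hloga, hU]
      exact Finset.sum_erase_add _ _ hP
    have hsmall : ∀ q ∈ U, Real.log q < 3 / 2 * Real.log N := by
      intro q h
      have h1 : ∑ q ∈ U.erase q, Real.log q + Real.log q = ∑ q ∈ U, Real.log q :=
        Finset.sum_erase_add _ _ h
      have h2 := hsum (U.erase q) ((Finset.erase_subset _ _).trans hUS)
      have h3 : (3 : ℝ) ≤ (#(U.erase q) : ℝ) := by
        have : 3 ≤ #(U.erase q) := by
          rw [Finset.card_erase_of_mem h, hUc]
          omega
        exact_mod_cast this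
      have h5 : 3 * (ay * Real.log N) ≤ (#(U.erase q) : ℝ) * (ay * Real.log N) := by
        refine mul_le_mul_of_nonneg_right h3 ?_
        rw [hay]
        positivity
      rw [hay] at h5
      rw [hay] at h2
      nlinarith
    have hσ : ∀ e : Fin r ↪ U, ∑ i, CM0_ce N (e i) ≤ 481 := by
      intro e
      refine CM0_sig N r hN2 (fun i => (e i : ℕ)) (481 + 1 / 2) (fun i => hone _ (hUS (e i).2)) ?_ 481
        (by norm_num)
      have h1 : ∑ i, Real.log ((e i : ℕ) : ℝ) ≤ ∑ q ∈ U, Real.log q := by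
        have hinj : Function.Injective fun i => (e i : ℕ) := fun i i' h => e.injective (Subtype.ext h)
        have h2 : ∑ i, Real.log ((e i : ℕ) : ℝ) = ∑ q ∈ univ.image fun i => (e i : ℕ), Real.log q := by
          rw [Finset.sum_image (fun i _ i' _ h => hinj h)]
        rw [h2]
        refine Finset.sum_le_sum_of_subset_of_nonneg ?_ ?_
        · intro q hq'
          obtain ⟨i, _, rfl⟩ := Finset.mem_image.mp hq'
          exact (e i).2
        · intro q hq' _
          exact Real.log_nonneg (by exact_mod_cast hone q (hUS hq'))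
      linarith
    have hcard := CM0_sum N a r hN2 ha1 hsq hr h4 (by omega) U hUS (1 / (r.factorial : ℝ)) (by positivity)
      (fun q h => ⟨hce100 q (hUS h), hce481 q (hUS h) (hsmall q h)⟩) (fun e => ⟨(hσ e).trans (by norm_num), by
        unfold om
        rw [if_neg (by simp), if_pos (hσ e)]⟩)
    have hE : Fintype.card (Fin r ↪ U) = r.factorial := by
      rw [Fintype.card_embedding_eq, Fintype.card_fin, Fintype.card_coe, hUc, Nat.descFactorial_self]
    rw [hE] at hcard
    have hf : (0 : ℝ) < (r.factorial : ℝ) := by exact_mod_cast r.factorial_pos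
    rwa [mul_one_div_cancel hf.ne'] at hcard
  · push Not at hbig
    have hσ : ∀ e : Fin r ↪ a.primeFactors, ∑ i, CM0_ce N (e i) ≤ 861 := by
      intro e
      obtain ⟨P, hP, hPe⟩ := CM0_rem a r hsq hr a.primeFactors (Finset.Subset.refl _) e
      refine CM0_sig N r hN2 (fun i => (e i : ℕ)) (861 + 995 / 1000) (fun i => hone _ (e i).2) ?_ 861
        (by norm_num)
      have h1 : Real.log a = ∑ i, Real.log ((e i : ℕ) : ℝ) + Real.log P := by
        conv_lhs => rw [hPe]
        rw [Nat.cast_mul, Nat.cast_prod, Real.log_mul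
          (Finset.prod_ne_zero_iff.mpr fun i _ => by exact_mod_cast (hpos _ (e i).2).ne')
          (by exact_mod_cast (hpos P hP).ne')]
        rw [Real.log_prod (fun i _ => by exact_mod_cast (hpos _ (e i).2).ne')]
      have h2 := hlq P hP
      rw [hay] at h2
      linarith
    have hcard := CM0_sum N a r hN2 ha1 hsq hr h4 (by omega) a.primeFactors (Finset.Subset.refl _)
      (1 / ((r + 1).factorial : ℝ)) (by positivity)
      (fun q h => ⟨hce100 q h, hce481 q h (hbig q h)⟩) (fun e => ⟨hσ e, by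
        unfold om
        rw [if_neg (by simp)]
        split_ifs
        · apply one_div_le_one_div_of_le (by exact_mod_cast r.factorial_pos)
          exact_mod_cast Nat.factorial_le (Nat.le_succ r)
        · exact le_refl _⟩)
    have hE : Fintype.card (Fin r ↪ a.primeFactors) = (r + 1).factorial := by
      rw [Fintype.card_embedding_eq, Fintype.card_fin, Fintype.card_coe, hr]
      have h1 := Nat.descFactorial_succ (r + 1) r
      rw [Nat.descFactorial_self] at h1
      rw [h1]
      simp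
    rw [hE] at hcard
    have hf : (0 : ℝ) < ((r + 1).factorial : ℝ) := by exact_mod_cast (r + 1).factorial_pos
    rwa [mul_one_div_cancel hf.ne'] at hcard

end Pool.Agent.EC
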